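import Pool.Agent.H38.NP.Defs

/-!
Locating-dominating coalitions.
-/

namespace Pool.Agent.H38.Ldc

variable {V : Type}

/-- `D` is a locating-dominating set of `G`. -/
def IsLD (G : SimpleGraph V) (D : Set V) : Prop :=
  (∀ v ∉ D, ∃ w ∈ D, G.Adj v w) ∧
    ∀ u ∉ D, ∀ v ∉ D, u ≠ v → G.neighborSet u ∩ D ≠ G.neighborSet v ∩ D

/-- `X` and `Y` form an LD-coalition. -/
def Coal (G : SimpleGraph V) (X Y : Set V) : Prop :=
  Disjoint X Y ∧ ¬ IsLD G X ∧ ¬ IsLD G Y ∧ IsLD G (X ∪ Y)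

/-- The fibres of `p` form an LDC-partition of `G` with exactly `k` (nonempty) parts. -/
def LDCPart (G : SimpleGraph V) (k : ℕ) (p : V → Fin k) : Prop :=
  Function.Surjective p ∧
    ∀ i, ¬ IsLD G (p ⁻¹' {i}) ∧ ∃ j, j ≠ i ∧ Coal G (p ⁻¹' {i}) (p ⁻¹' {j})

/-- `C_L(G) ≥ k`: there is an LDC-partition with at least `k` parts. -/
def CLge (G : SimpleGraph V) (k : ℕ) : Prop := ∃ k', k ≤ k' ∧ ∃ p : V → Fin k', LDCPart G k' p

end Pool.Agent.H38.Ldc
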