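import Pool.Agent.H38.Ldc.Two

/-!
The gadget graph.
-/

namespace Pool.Agent.H38.Ldc

open Finset

abbrev T := ℕ × ℕ

section
variable (K m : ℕ) (vr : ℕ → ℕ)

def Val (x : T) : Prop := (x.1 ≤ 1 ∧ x.2 < K + 4 * m) ∨ (x.1 = 2 ∧ x.2 < 4 * m ∧ x.2 % 4 ≠ 3) ∨
  (x.1 = 3 ∧ x.2 < 2 * m) ∨ (x.1 = 4 ∧ x.2 < 2) ∨ (x.1 = 5 ∧ x.2 < 8)

def R (x y : T) : Prop := (y.1 = 0 ∧ (x.1 = 0 ∨ (x.1 = 1 ∧ y.2 = x.2) ∨
  (x.1 = 2 ∧ (y.2 = K + x.2 ∨ y.2 = vr x.2)) ∨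
  (x.1 = 3 ∧ K + 4 * (x.2 / 2) ≤ y.2 ∧ y.2 < K + 4 * (x.2 / 2) + 4) ∨
  (x.1 = 5 ∧ (y.2 = x.2 ∨ y.2 = 8 + x.2 ∨ y.2 = 16 + x.2 / 4)))) ∨
  (x.1 = 4 ∧ y.1 = 5 ∧ y.2 / 4 = x.2)

def A (x y : T) : Prop := ¬ (x.1 = y.1 ∧ x.2 = y.2) ∧ (R K vr x y ∨ R K vr y x)

def pv (c : ℕ → ℕ) (x : T) : ℕ :=
  if x.1 = 0 then c x.2 else if x.1 = 1 then 1 - c x.2 else if x.1 = 2 then 1 - c (K + x.2)
  else if x.1 = 3 then x.2 % 2 else if x.1 = 4 then 1 - x.2 else 2 + x.2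

end

structure Good (K m : ℕ) (vr c : ℕ → ℕ) : Prop where
  c0 : ∀ a, c a ≤ 1
  c1 : ∀ a < 8, c a = a / 4
  c2 : ∀ a < 8, c (8 + a) = 1 - a / 4
  c3 : ∀ g < 2, c (16 + g) = g
  c4 : ∀ s < 4 * m, s % 4 ≠ 3 → c (vr s) = c (K + s)
  c5 : ∀ k < m, c (K + 4 * k) + c (K + 4 * k + 1) + c (K + 4 * k + 2) + c (K + 4 * k + 3) = 2

variable {K m : ℕ} {vr c : ℕ → ℕ}

theorem wit (hv : ∀ s, 18 ≤ vr s ∧ vr s < K) (h : Good K m vr c) {s : ℕ} (hs : s < 8) (x : T)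
    (hx : Val K m x) (hD : ¬ (pv K c x = s / 4 ∨ pv K c x = 2 + s)) :
    ∃ w, Val K m w ∧ (pv K c w = s / 4 ∨ pv K c w = 2 + s) ∧ A K vr x w ∧
    ∃ w', Val K m w' ∧ (pv K c w' = s / 4 ∨ pv K c w' = 2 + s) ∧ A K vr x w' ∧
      ∀ y, Val K m y → ¬ (pv K c y = s / 4 ∨ pv K c y = 2 + s) → (x.1 ≠ 0 → y.1 ≠ 0) →
        (x.1 = 1 → y.1 = 1) → A K vr y w → A K vr y w' → y.1 = x.1 ∧ y.2 = x.2 := by
  obtain ⟨t, a⟩ := x
  have h0 := hv 0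
  have ha := hv a
  have b0 := h.c0 a
  have : t = 0 ∨ t = 1 ∨ t = 2 ∨ t = 3 ∨ t = 4 ∨ t = 5 := by simp only [Val] at hx; omega
  rcases this with rfl | rfl | rfl | rfl | rfl | rfl <;> simp [Val, pv] at hx hD
  · refine ⟨(1, a), ?_, ?_, ?_, (1, a), ?_, ?_, ?_, fun y _ _ _ _ e _ => ?_⟩ <;>
      simp [Val, pv, A, R] at * <;> omega
  · refine ⟨(0, a), ?_, ?_, ?_, (0, a), ?_, ?_, ?_, fun y _ _ _ f e _ => ?_⟩ <;>
      simp [Val, pv, A, R] at * <;> omega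
  · have := h.c4 a hx.1 hx.2
    have := h.c0 (K + a)
    refine ⟨(0, K + a), ?_, ?_, ?_, (0, vr a), ?_, ?_, ?_, fun y v _ f _ e e' => ?_⟩
    any_goals (simp [Val, pv, A, R]; try omega)
    have := hv y.2
    simp only [Val, A, R] at v e e' f ⊢
    omega
  · obtain ⟨i, j, hij, hj, ci, cj⟩ : ∃ i j, i < j ∧ j < 4 ∧ c (K + 4 * (a / 2) + i) = s / 4 ∧
        c (K + 4 * (a / 2) + j) = s / 4 := by
      have := h.c5 (a / 2) (by omega)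
      have := h.c0 (K + 4 * (a / 2))
      have := h.c0 (K + 4 * (a / 2) + 1)
      have := h.c0 (K + 4 * (a / 2) + 2)
      have := h.c0 (K + 4 * (a / 2) + 3)
      by_contra hc
      push Not at hc
      have := hc 0 1 (by omega) (by omega)
      have := hc 0 2 (by omega) (by omega)
      have := hc 0 3 (by omega) (by omega)
      have := hc 1 2 (by omega) (by omega)
      have := hc 1 3 (by omega) (by omega)
      have := hc 2 3 (by omega) (by omega)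
      simp only [add_zero] at *
      omega
    refine ⟨(0, K + 4 * (a / 2) + i), ?_, ?_, ?_, (0, K + 4 * (a / 2) + j), ?_, ?_, ?_,
      fun y v d f _ e e' => ?_⟩
    any_goals (simp [Val, pv, A, R]; try omega)
    have := hv y.2
    simp only [Val, A, R] at v e e' f ⊢
    have h3 : y.1 = 3 := by omega
    simp [pv, h3] at d
    omega
  · refine ⟨(5, s), ?_, ?_, ?_, (5, s), ?_, ?_, ?_, fun y v _ f _ e _ => ?_⟩ <;>
      simp [Val, pv, A, R] at * <;> omega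
  · have := h.c1 a hx
    have := h.c2 a hx
    have := h.c3 (a / 4) (by omega)
    by_cases hg : a / 4 = s / 4
    · refine ⟨(0, a), ?_, ?_, ?_, (0, 16 + a / 4), ?_, ?_, ?_, fun y v _ f _ e e' => ?_⟩
      any_goals (simp [Val, pv, A, R]; try omega)
      have := hv y.2
      simp only [Val, A, R] at v e e' f ⊢
      omega
    · refine ⟨(0, 8 + a), ?_, ?_, ?_, (4, a / 4), ?_, ?_, ?_, fun y v _ f _ e e' => ?_⟩
      any_goals (simp [Val, pv, A, R]; try omega)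
      have := hv y.2
      simp only [Val, A, R] at v e e' f ⊢
      omega

end Pool.Agent.H38.Ldc
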