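import Pool.Agent.H38.NP.Api

/-!
Monotone not-all-equal 3SAT is NP-hard (copied from the file Sig2 of helper66).
-/

namespace Pool.Agent.H38.Ldc

open Pool.Agent.H38.NP Finset

/-- not-all-equal colouring of triples -/
def NAE (φ : List (ℕ × ℕ × ℕ)) : Prop :=
  ∃ χ : ℕ → Bool, ∀ C ∈ φ, ¬ (χ C.1 = χ C.2.1 ∧ χ C.2.1 = χ C.2.2)

def lv (l : Lit) : ℕ := 4 * l.1 + 1 + l.2.toNat

def naeOf (C : (Lit × Lit × Lit) × ℕ) : List (ℕ × ℕ × ℕ) :=
  [(lv C.1.1, lv C.1.2.1, 4 * C.2 + 3), (4 * C.2 + 4, lv C.1.2.2, 0),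
   (4 * C.2 + 3, 4 * C.2 + 3, 4 * C.2 + 4),
   (4 * C.1.1.1 + 1, 4 * C.1.1.1 + 1, 4 * C.1.1.1 + 2),
   (4 * C.1.2.1.1 + 1, 4 * C.1.2.1.1 + 1, 4 * C.1.2.1.1 + 2),
   (4 * C.1.2.2.1 + 1, 4 * C.1.2.2.1 + 1, 4 * C.1.2.2.1 + 2)]

theorem nae_nph : NPH (fun _ : List (ℕ × ℕ × ℕ) => True) NAE := by
  refine sat3_nph.reduce (fun φ => φ.zipIdx.flatMap naeOf)
    (by unfold naeOf lv; fun_prop) fun φ _ => ⟨trivial, ?_, ?_⟩
  · rintro ⟨a, ha⟩
    let y : ℕ → Bool := fun c => (φ[c]?).elim false fun C =>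
      !(decide (a C.1.1 = C.1.2) || decide (a C.2.1.1 = C.2.1.2))
    let χ : ℕ → Bool := fun n => if n = 0 then false else if n % 4 = 1 then !a (n / 4)
      else if n % 4 = 2 then a (n / 4) else if n % 4 = 3 then y (n / 4) else !y (n / 4 - 1)
    have e1 : ∀ v, χ (4 * v + 1) = !a v := fun v => by
      have h1 : (4 * v + 1) % 4 = 1 := by omega
      have h2 : (4 * v + 1) / 4 = v := by omega
      simp [χ, h1, h2]
    have e2 : ∀ v, χ (4 * v + 2) = a v := fun v => by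
      have h1 : (4 * v + 2) % 4 = 2 := by omega
      have h2 : (4 * v + 2) / 4 = v := by omega
      simp [χ, h1, h2]
    have e3 : ∀ v, χ (4 * v + 3) = y v := fun v => by
      have h1 : (4 * v + 3) % 4 = 3 := by omega
      have h2 : (4 * v + 3) / 4 = v := by omega
      simp [χ, h1, h2]
    have e4 : ∀ v, χ (4 * v + 4) = !y v := fun v => by
      have h1 : (4 * v + 4) % 4 = 0 := by omega
      have h2 : (4 * v + 4) / 4 - 1 = v := by omega
      simp only [χ, h1, h2]; simp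
    have e5 : ∀ l : Lit, χ (lv l) = decide (a l.1 = l.2) := by
      rintro ⟨v, b⟩
      cases b
      · simp [lv, e1]
      · simp only [lv, Bool.toNat_true, add_assoc]; simpa using e2 v
    have e0 : χ 0 = false := rfl
    refine ⟨χ, fun T hT => ?_⟩
    simp only [List.mem_flatMap, Prod.exists, List.mem_zipIdx_iff_getElem?] at hT
    obtain ⟨v1, s1, v2, s2, v3, s3, c, hC, hT⟩ := hT
    have hy : y c = !(decide (a v1 = s1) || decide (a v2 = s2)) := by simp [y, hC]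
    have hs := ha _ (List.mem_of_getElem? hC)
    simp only [naeOf, List.mem_cons, List.not_mem_nil, or_false] at hT
    rcases hT with rfl | rfl | rfl | rfl | rfl | rfl <;> simp only [e1, e2, e3, e4, e5, e0, hy]
    · cases decide (a v1 = s1) <;> cases decide (a v2 = s2) <;> simp
    · by_cases h1 : a v1 = s1 <;> by_cases h2 : a v2 = s2 <;> simp_all
    · cases decide (a v1 = s1) <;> cases decide (a v2 = s2) <;> simp
    all_goals simp
  · rintro ⟨χ, h⟩
    refine ⟨fun v => xor (χ (4 * v + 2)) (χ 0), fun C hC => ?_⟩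
    obtain ⟨c, hc⟩ := List.mem_iff_getElem?.1 hC
    have h' : ∀ T ∈ naeOf (C, c), _ := fun T hT => h T (List.mem_flatMap.2
      ⟨(C, c), List.mem_zipIdx_iff_getElem?.2 hc, hT⟩)
    obtain ⟨⟨v1, s1⟩, ⟨v2, s2⟩, ⟨v3, s3⟩⟩ := C
    simp only [naeOf, List.forall_mem_cons, lv] at h'
    obtain ⟨h1, h2, h3, h4, h5, h6, -⟩ := h'
    cases s1 <;> cases s2 <;> cases s3 <;>
      simp only [Bool.toNat_true, Bool.toNat_false, add_zero, add_assoc, Nat.reduceAdd] at * <;>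
      generalize χ (4 * v1 + 1) = x1, χ (4 * v1 + 2) = x2, χ (4 * v2 + 1) = x3,
        χ (4 * v2 + 2) = x4, χ (4 * v3 + 1) = x5, χ (4 * v3 + 2) = x6, χ (4 * c + 3) = x7,
        χ (4 * c + 4) = x8, χ 0 = x9 at * <;>
      revert x1 x2 x3 x4 x5 x6 x7 x8 x9 <;> decide

end Pool.Agent.H38.Ldc
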