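import Pool.Agent.H38.Ldc.Gad
import Pool.Agent.H38.Ldc.Nae
import Pool.Agent.H38.NP.TG

/-!
The reduction.
-/

namespace Pool.Agent.H38.Ldc

open Pool.Agent.H38.NP Finset

structure Emb {V : Type} (K m : ℕ) (vr : ℕ → ℕ) (G : SimpleGraph V) (e : V → T) : Prop where
  hv : ∀ s, 18 ≤ vr s ∧ vr s < K
  inj : Function.Injective e
  rg : ∀ x, Val K m x ↔ ∃ u, e u = x
  ad : ∀ u v, G.Adj u v ↔ A K vr (e u) (e v)

variable {V : Type} {K m : ℕ} {vr c : ℕ → ℕ} {G : SimpleGraph V} {e : V → T}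

theorem Emb.val (h : Emb K m vr G e) (u : V) : Val K m (e u) := (h.rg _).2 ⟨u, rfl⟩

theorem Emb.low (h : Emb K m vr G e) : Low G := fun v => by
  classical
  have hv := h.val v
  have key : ∀ L : Finset T, L.card ≤ 4 → (∀ y, Val K m y → A K vr (e v) y → y ∈ L) →
      ∃ L : Finset V, L.card ≤ 4 ∧ ∀ w, G.Adj v w → w ∈ L := fun L h1 h2 =>
    ⟨L.preimage e h.inj.injOn, (card_le_card_of_injOn e (fun w hw => by simpa using hw)
      h.inj.injOn).trans h1, fun w hw => mem_preimage.2 (h2 _ (h.val w) ((h.ad _ _).1 hw))⟩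
  generalize hx : e v = x at hv key
  obtain ⟨t, a⟩ := x
  have : t = 0 ∨ t = 1 ∨ t = 2 ∨ t = 3 ∨ t = 4 ∨ t = 5 := by simp only [Val] at hv; omega
  rcases this with rfl | rfl | rfl | rfl | rfl | rfl
  · obtain ⟨w, hw⟩ := (h.rg (1, a)).1 (by simp [Val] at *; omega)
    refine Or.inl ⟨w, (h.ad _ _).2 (by simp [hx, hw, A, R]), fun z hz => h.inj ?_⟩
    rw [h.ad, hw] at hz
    rw [hx, Prod.ext_iff]
    simp [A, R] at hz ⊢
    omega
  · refine Or.inr (key {(0, a), (0, a), (0, a), (0, a)} card_le_four fun y _ f => ?_)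
    simp [A, R, Prod.ext_iff] at f ⊢
    omega
  · refine Or.inr (key {(0, K + a), (0, vr a), (0, a), (0, a)} card_le_four fun y _ f => ?_)
    simp [A, R, Prod.ext_iff] at f ⊢
    omega
  · refine Or.inr (key {(0, K + 4 * (a / 2)), (0, K + 4 * (a / 2) + 1), (0, K + 4 * (a / 2) + 2),
      (0, K + 4 * (a / 2) + 3)} card_le_four fun y _ f => ?_)
    simp [A, R, Prod.ext_iff] at f ⊢
    omega
  · refine Or.inr (key {(5, 4 * a), (5, 4 * a + 1), (5, 4 * a + 2), (5, 4 * a + 3)} card_le_four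
      fun y _ f => ?_)
    simp [A, R, Prod.ext_iff] at f ⊢
    omega
  · refine Or.inr (key {(0, a), (0, 8 + a), (0, 16 + a / 4), (4, a / 4)} card_le_four
      fun y _ f => ?_)
    simp [A, R, Prod.ext_iff] at f ⊢
    omega

theorem Emb.conn (h : Emb K m vr G e) : G.Connected := by
  have h0 := h.hv 0
  obtain ⟨o, ho⟩ := (h.rg (0, 0)).1 (by simp [Val]; omega)
  have c0 : ∀ v, (e v).1 = 0 → G.Reachable o v := fun v hv => by
    by_cases k : o = v
    · rw [k]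
    · refine ((h.ad _ _).2 ⟨fun f => k (h.inj (Prod.ext f.1 f.2)), ?_⟩).reachable
      simp [R, ho, hv]
  have st : ∀ v y, Val K m y → A K vr y (e v) → (∀ w, e w = y → G.Reachable o w) →
      G.Reachable o v := fun v y a b d => by
    obtain ⟨w, rfl⟩ := (h.rg y).1 a
    exact (d w rfl).trans ((h.ad _ _).2 b).reachable
  have c1 : ∀ v, (e v).1 ≠ 4 → G.Reachable o v := fun v hv => by
    have := h.val v
    by_cases k : (e v).1 = 0
    · exact c0 v k
    refine st v (0, if (e v).1 = 2 then K + (e v).2 else if (e v).1 = 3 then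
      K + 4 * ((e v).2 / 2) else (e v).2) ?_ ?_ fun w hw => c0 w (by rw [hw])
    all_goals
      simp only [Val, A, R] at *
      split_ifs <;> simp <;> omega
  refine (SimpleGraph.connected_iff_exists_forall_reachable G).2 ⟨o, fun v => ?_⟩
  by_cases k : (e v).1 = 4
  · have := h.val v
    refine st v (5, 4 * (e v).2) ?_ ?_ fun w hw => c1 w (by rw [hw]; simp)
    all_goals
      simp [Val, A, R, k] at *
      try omega
  · exact c1 v k

theorem Emb.ld (h : Emb K m vr G e) (g : Good K m vr c) {s : ℕ} (hs : s < 8) :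
    IsLD G {v | pv K c (e v) = s / 4 ∨ pv K c (e v) = 2 + s} := by
  refine isLD_of (fun v hv => ?_) fun u hu v hv H => h.inj ?_
  · obtain ⟨w, a, b, d, -⟩ := wit h.hv g hs _ (h.val v) hv
    obtain ⟨w, rfl⟩ := (h.rg w).1 a
    exact ⟨w, b, (h.ad _ _).2 d⟩
  · have key : ∀ u v, ¬ (pv K c (e u) = s / 4 ∨ pv K c (e u) = 2 + s) →
        ¬ (pv K c (e v) = s / 4 ∨ pv K c (e v) = 2 + s) → ((e u).1 ≠ 0 → (e v).1 ≠ 0) →
        ((e u).1 = 1 → (e v).1 = 1) → (∀ w, (pv K c (e w) = s / 4 ∨ pv K c (e w) = 2 + s) →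
          G.Adj u w → G.Adj v w) → e v = e u := fun u v hu hv a1 a2 H => by
      obtain ⟨w, a, b, d, w', a', b', d', k⟩ := wit h.hv g hs _ (h.val u) hu
      obtain ⟨w, rfl⟩ := (h.rg w).1 a
      obtain ⟨w', rfl⟩ := (h.rg w').1 a'
      have := k _ (h.val v) hv a1 a2 ((h.ad _ _).1 (H w b ((h.ad _ _).2 d)))
        ((h.ad _ _).1 (H w' b' ((h.ad _ _).2 d')))
      exact Prod.ext this.1 this.2
    by_cases k : ((e u).1 ≠ 0 → (e v).1 ≠ 0) ∧ ((e u).1 = 1 → (e v).1 = 1)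
    · exact (key u v hu hv k.1 k.2 fun w hw => (H w hw).1).symm
    · exact key v u hv hu (by omega) (by omega) fun w hw => (H w hw).2

theorem Emb.compl (h : Emb K m vr G e) (g : Good K m vr c) : CLge G 10 := by
  have h0 := h.hv 0
  have lt : ∀ v, pv K c (e v) < 10 := fun v => by
    have := h.val v
    have := g.c0 (e v).2
    simp only [Val, pv] at *
    split_ifs <;> omega
  let p : V → Fin 10 := fun v => ⟨_, lt v⟩
  have nl : ∀ i, ¬ IsLD G (p ⁻¹' {i}) := fun i hi => by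
    obtain ⟨u, hu⟩ := (h.rg (if i.val < 2 then (4, i.val) else (1, 0))).1 (by
      split_ifs <;> simp [Val] <;> omega)
    have b := g.c0 0
    rcases hi.hit1 u with k | ⟨w, k, k'⟩
    · simp only [p, Set.mem_preimage, Set.mem_singleton_iff, Fin.ext_iff, hu] at k
      split_ifs at k <;> simp [pv] at k <;> omega
    · simp only [p, Set.mem_preimage, Set.mem_singleton_iff, Fin.ext_iff] at k
      rw [h.ad, hu] at k'
      split_ifs at k' <;> simp [A, R] at k'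
      · simp [pv, k'.2.1] at k
        omega
      · simp [pv, k'.2.1, k'.2.2] at k
        omega
  refine ⟨10, le_rfl, p, fun i => ?_, fun i => ⟨nl i, ?_⟩⟩
  · obtain ⟨u, hu⟩ := (h.rg (if i.val < 2 then (0, 16 + i.val) else (5, i.val - 2))).1 (by
      split_ifs <;> simp [Val] <;> omega)
    refine ⟨u, Fin.ext ?_⟩
    simp only [p, hu]
    split_ifs with k
    · simp [pv, g.c3 _ k]
    · simp [pv]; omega
  · have dj : ∀ j, j ≠ i → Disjoint (p ⁻¹' {i}) (p ⁻¹' {j}) := fun j hj =>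
      Set.disjoint_left.2 fun v a b => hj (b.symm.trans a)
    by_cases k : i.val < 2
    · have ne : (⟨2 + 4 * i.val, by omega⟩ : Fin 10) ≠ i := fun f => by
        have := congrArg Fin.val f
        simp only at this
        omega
      refine ⟨_, ne, dj _ ne, nl _, nl _, ?_⟩
      convert h.ld g (s := 4 * i.val) (by omega) using 1
      ext v
      simp [p, Fin.ext_iff]
    · have ne : (⟨(i.val - 2) / 4, by omega⟩ : Fin 10) ≠ i := fun f => by
        have := congrArg Fin.val f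
        simp only at this
        omega
      refine ⟨_, ne, dj _ ne, nl _, nl _, ?_⟩
      convert h.ld g (s := i.val - 2) (by omega) using 1
      ext v
      simp only [p, Fin.ext_iff, Set.mem_union, Set.mem_preimage, Set.mem_singleton_iff,
        Set.mem_ofPred_eq]
      omega

structure Fa (K m : ℕ) (vr : ℕ → ℕ) (D : T → Prop) : Prop where
  f1 : ∀ a < K + 4 * m, D (0, a) ∨ D (1, a)
  f2 : ∀ s < 4 * m, s % 4 ≠ 3 → (D (2, s) ∨ D (1, K + s) ∨ D (0, vr s)) ∧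
    (D (2, s) ∨ D (1, vr s) ∨ D (0, K + s))
  f3 : ∀ k < m, D (3, 2 * k) ∨ D (3, 2 * k + 1)
  f4 : ∀ k < m, ∀ i < 2, D (3, 2 * k + i) ∨ D (0, K + 4 * k) ∨ D (0, K + (4 * k + 1)) ∨
    D (0, K + (4 * k + 2)) ∨ (D (0, K + (4 * k + 3)) ∧ D (1, K + (4 * k + 3)))

theorem Emb.fa (h : Emb K m vr G e) {D : Set V} (hD : IsLD G D) :
    Fa K m vr fun x => x ∈ e '' D := by
  have h1 : ∀ x, Val K m x → x ∈ e '' D ∨ ∃ w ∈ e '' D, A K vr x w := fun x hx => by
    obtain ⟨u, rfl⟩ := (h.rg x).1 hx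
    exact (hD.hit1 u).imp (fun k => ⟨u, k, rfl⟩) fun ⟨w, a, b⟩ => ⟨_, ⟨w, a, rfl⟩, (h.ad _ _).1 b⟩
  have h2 : ∀ x y, Val K m x → Val K m y → x ≠ y → x ∈ e '' D ∨ y ∈ e '' D ∨
      ∃ w ∈ e '' D, ¬ (A K vr x w ↔ A K vr y w) := fun x y hx hy ne => by
    obtain ⟨u, rfl⟩ := (h.rg x).1 hx
    obtain ⟨v, rfl⟩ := (h.rg y).1 hy
    exact (hD.hit2 fun k => ne (congrArg e k)).imp (fun k => ⟨u, k, rfl⟩) (Or.imp
      (fun k => ⟨v, k, rfl⟩) fun ⟨w, a, b⟩ => ⟨_, ⟨w, a, rfl⟩, by rwa [← h.ad, ← h.ad]⟩)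
  generalize e '' D = E at h1 h2
  refine ⟨fun a ha => ?_, fun s hs hs' => ⟨?_, ?_⟩, fun k hk => ?_, fun k hk i hi => ?_⟩
  · rcases h1 (1, a) (by simp [Val, ha]) with f | ⟨⟨t, b⟩, f, f'⟩
    · exact Or.inr f
    · obtain ⟨rfl, rfl⟩ : t = 0 ∧ b = a := by simp [A, R] at f'; omega
      exact Or.inl f
  · have := h.hv s
    rcases h2 (2, s) (1, K + s) (by simp [Val, hs, hs']) (by simp [Val, hs]) (by simp) with
      f | f | ⟨⟨t, b⟩, f, f'⟩
    · tauto
    · tauto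
    · obtain ⟨rfl, rfl⟩ : t = 0 ∧ b = vr s := by simp [A, R] at f'; omega
      tauto
  · have := h.hv s
    rcases h2 (2, s) (1, vr s) (by simp [Val, hs, hs']) (by simp [Val]; omega) (by simp) with
      f | f | ⟨⟨t, b⟩, f, f'⟩
    · tauto
    · tauto
    · obtain ⟨rfl, rfl⟩ : t = 0 ∧ b = K + s := by simp [A, R] at f'; omega
      tauto
  · rcases h2 (3, 2 * k) (3, 2 * k + 1) (by simp [Val, hk]) (by simp [Val]; omega) (by simp) with
      f | f | ⟨⟨t, b⟩, f, f'⟩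
    · tauto
    · tauto
    · simp [A, R] at f'; omega
  · have hv : Val K m (3, 2 * k + i) := by simp [Val]; omega
    by_contra hc
    simp only [not_or] at hc
    obtain ⟨n0, n1, n2, n3, n4⟩ := hc
    refine n4 ⟨?_, ?_⟩
    · rcases h1 _ hv with f | ⟨⟨t, b⟩, f, f'⟩
      · exact (n0 f).elim
      · have : t = 0 ∧ (b = K + 4 * k ∨ b = K + (4 * k + 1) ∨ b = K + (4 * k + 2) ∨
            b = K + (4 * k + 3)) := by simp [A, R] at f'; omega
        rcases this with ⟨rfl, rfl | rfl | rfl | rfl⟩ <;> tauto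
    · rcases h2 _ (1, K + (4 * k + 3)) hv (by simp [Val]; omega) (by simp) with
        f | f | ⟨⟨t, b⟩, f, f'⟩
      · exact (n0 f).elim
      · exact f
      · have : t = 0 ∧ (b = K + 4 * k ∨ b = K + (4 * k + 1) ∨ b = K + (4 * k + 2)) := by
          simp [A, R] at f'; omega
        rcases this with ⟨rfl, rfl | rfl | rfl⟩ <;> tauto

theorem pr1 {a b c d : Prop} (h1 : a ∨ c) (h2 : b ∨ d) (h3 : ¬ (a ∧ b)) (h4 : ¬ (c ∧ d)) :
    (b ↔ ¬ a) ∧ (c ↔ ¬ a) ∧ (d ↔ a) := by tauto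

theorem pr2 {a b x o : Prop} (h1 : (a ∨ ¬ o ∨ x) ∧ (a ∨ ¬ x ∨ o))
    (h2 : (b ∨ o ∨ ¬ x) ∧ (b ∨ x ∨ ¬ o)) (h3 : ¬ (a ∧ b)) : x ↔ o := by tauto

theorem pr3 {a a' b b' x y z w : Prop} (h1 : a ∨ a') (h2 : b ∨ b') (h3 : ¬ (a ∧ b))
    (h4 : ¬ (a' ∧ b')) (h5 : a ∨ x ∨ y ∨ z ∨ w ∧ ¬ w) (h6 : a' ∨ x ∨ y ∨ z ∨ w ∧ ¬ w)
    (h7 : b ∨ ¬ x ∨ ¬ y ∨ ¬ z ∨ ¬ w ∧ w) (h8 : b' ∨ ¬ x ∨ ¬ y ∨ ¬ z ∨ ¬ w ∧ w) :
    ¬ ((x ↔ y) ∧ (y ↔ z)) := by
  by_cases x <;> by_cases y <;> by_cases z <;> simp_all <;> tauto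

theorem Emb.sound (h : Emb K m vr G e) (hk : CLge G 10) : ∃ P : ℕ → Prop, ∀ k < m,
    ¬ ((P (vr (4 * k)) ↔ P (vr (4 * k + 1))) ∧ (P (vr (4 * k + 1)) ↔ P (vr (4 * k + 2)))) := by
  obtain ⟨P, Q, dj, hP, hQ⟩ := two h.low hk
  have p := h.fa hP
  have q := h.fa hQ
  have d : ∀ x, ¬ (x ∈ e '' P ∧ x ∈ e '' Q) := fun x ⟨a, b⟩ =>
    Set.disjoint_left.1 ((Set.disjoint_image_iff h.inj).2 dj) a b
  generalize e '' P = P at p d
  generalize e '' Q = Q at q d
  have c : ∀ a < K + 4 * m, ((0, a) ∈ Q ↔ (0, a) ∉ P) ∧ ((1, a) ∈ P ↔ (0, a) ∉ P) ∧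
      ((1, a) ∈ Q ↔ (0, a) ∈ P) := fun a ha => pr1 (p.f1 a ha) (q.f1 a ha) (d _) (d _)
  have eq : ∀ s < 4 * m, s % 4 ≠ 3 → ((0, vr s) ∈ P ↔ (0, K + s) ∈ P) := fun s a b => by
    have h1 := p.f2 s a b
    have h2 := q.f2 s a b
    have h3 := c (vr s) (by have := h.hv s; omega)
    have h4 := c (K + s) (by omega)
    rw [h3.2.1, h4.2.1] at h1
    rw [h3.1, h3.2.2, h4.1, h4.2.2] at h2
    exact pr2 h1 h2 (d _)
  refine ⟨fun a => (0, a) ∈ P, fun k hk => ?_⟩
  simp only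
  rw [eq (4 * k) (by omega) (by omega), eq (4 * k + 1) (by omega) (by omega),
    eq (4 * k + 2) (by omega) (by omega)]
  have h5 := p.f4 k hk 0 (by omega)
  have h6 := p.f4 k hk 1 (by omega)
  have h7 := q.f4 k hk 0 (by omega)
  have h8 := q.f4 k hk 1 (by omega)
  have c0 := (c (K + 4 * k) (by omega)).1
  have c1 := (c (K + (4 * k + 1)) (by omega)).1
  have c2 := (c (K + (4 * k + 2)) (by omega)).1
  have c3 := c (K + (4 * k + 3)) (by omega)
  rw [c3.2.1] at h5 h6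
  rw [c0, c1, c2, c3.1, c3.2.2] at h7 h8
  exact pr3 (p.f3 k hk) (q.f3 k hk) (d _) (d _) h5 h6 h7 h8

abbrev F := List (ℕ × ℕ × ℕ)

def kk (φ : F) : ℕ := (φ.map fun C => C.1 + C.2.1 + C.2.2).sum + 19

def vv (φ : F) (s : ℕ) : ℕ := 18 + if s % 4 = 0 then (φ.getD (s / 4) (0, 0, 0)).1
  else if s % 4 = 1 then (φ.getD (s / 4) (0, 0, 0)).2.1 else (φ.getD (s / 4) (0, 0, 0)).2.2

instance (K m x) : Decidable (Val K m x) := by unfold Val; infer_instance
instance (K vr x y) : Decidable (R K vr x y) := by unfold R; infer_instance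

def vs (φ : F) : List T := ((List.range 6).product (List.range (kk φ + 4 * φ.length))).filter
  fun x => decide (Val (kk φ) φ.length x)

def inst (φ : F) : ℕ × List (ℕ × ℕ) :=
  ((vs φ).length, tgE (vs φ) (fun x y => decide (R (kk φ) (vv φ) x y)) (0, 0))

theorem pt_inst : PT inst := by
  have h0 : PT kk := by unfold kk; fun_prop
  have h1 : PT vs := by unfold vs Val; fun_prop
  have h2 : PT fun φ => tgE (vs φ) (fun x y => decide (R (kk φ) (vv φ) x y)) (0, 0) :=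
    PT.tgE _ h1 (by unfold R vv; fun_prop)
  unfold inst
  fun_prop

theorem hvv (φ : F) (s : ℕ) : 18 ≤ vv φ s ∧ vv φ s < kk φ := by
  have : ∀ C, C = φ.getD (s / 4) (0, 0, 0) → C.1 + C.2.1 + C.2.2 ≤
      (φ.map fun C => C.1 + C.2.1 + C.2.2).sum := fun C hC => by
    by_cases h : s / 4 < φ.length
    · rw [List.getD_eq_getElem _ _ h] at hC
      exact List.single_le_sum (fun _ _ => Nat.zero_le _) _
        (List.mem_map.2 ⟨C, hC ▸ List.getElem_mem _, rfl⟩)
    · rw [List.getD_eq_default _ _ (not_lt.1 h)] at hC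
      simp [hC]
  have := this _ rfl
  unfold vv kk
  split_ifs <;> omega

theorem spec (φ : F) : (graphOf (inst φ).1 (inst φ).2).Connected ∧
    (NAE φ ↔ CLge (graphOf (inst φ).1 (inst φ).2) 10) := by
  obtain ⟨e, inj, rg, ad⟩ := tg_spec (Vs := vs φ) ((List.nodup_range.product
    List.nodup_range).filter _) (fun x y => decide (R (kk φ) (vv φ) x y)) (0, 0)
  have h0 := hvv φ 0
  have h : Emb (kk φ) φ.length (vv φ) (graphOf (inst φ).1 (inst φ).2) e := by
    refine ⟨hvv φ, inj, fun ⟨t, a⟩ => Iff.trans ?_ (rg _), fun u v => (ad u v).trans ?_⟩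
    · simp only [vs, List.mem_filter, List.pair_mem_product, List.mem_range, decide_eq_true_eq,
        Val]
      omega
    · simp only [TA, A, decide_eq_true_eq, ne_eq, Prod.ext_iff]
  have v0 : ∀ k (hk : k < φ.length), vv φ (4 * k) = 18 + φ[k].1 ∧
      vv φ (4 * k + 1) = 18 + φ[k].2.1 ∧ vv φ (4 * k + 2) = 18 + φ[k].2.2 := fun k hk => by
    have a1 : (4 * k + 1) / 4 = k := by omega
    have a2 : (4 * k + 2) / 4 = k := by omega
    simp [vv, a1, a2, hk]
  refine ⟨h.conn, fun ⟨χ, hχ⟩ => ?_, fun hk => ?_⟩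
  · let b : ℕ → ℕ := fun s => (χ (vv φ s - 18)).toNat
    have bl : ∀ s, b s ≤ 1 := fun s => Bool.toNat_le _
    refine h.compl (c := fun a => if a < 8 then a / 4 else if a < 16 then 1 - (a - 8) / 4
      else if a < 18 then a - 16 else if a < kk φ then (χ (a - 18)).toNat
      else if (a - kk φ) % 4 = 3 then 2 - (b (a - kk φ - 3) + b (a - kk φ - 2) + b (a - kk φ - 1))
        - (1 - b (a - kk φ - 3)) * (1 - b (a - kk φ - 2)) * (1 - b (a - kk φ - 1))
      else b (a - kk φ)) ⟨fun a => ?_, fun a ha => if_pos ha, fun a ha => ?_, fun g hg => ?_,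
        fun s hs hs' => ?_, fun k hk => ?_⟩
    · have := Bool.toNat_le (χ (a - 18))
      have := bl (a - kk φ)
      split_ifs
      any_goals omega
      simp only [b]
      cases χ _ <;> cases χ _ <;> cases χ _ <;> simp
    · rw [if_neg (by omega), if_pos (by omega), Nat.add_sub_cancel_left]
    · rw [if_neg (by omega), if_neg (by omega), if_pos (by omega), Nat.add_sub_cancel_left]
    · have := hvv φ s
      rw [if_neg (by omega), if_neg (by omega), if_neg (by omega), if_pos (by omega),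
        if_neg (by omega), if_neg (by omega), if_neg (by omega), if_neg (by omega),
        if_neg (by omega), Nat.add_sub_cancel_left]
    · have := hχ _ (List.getElem_mem hk)
      obtain ⟨a0, a1, a2⟩ := v0 k hk
      have e0 : ∀ j, kk φ + 4 * k + j - kk φ = 4 * k + j := fun j => by omega
      have e1 : ∀ j n, n ≤ kk φ → ¬ kk φ + 4 * k + j < n := fun j n => by omega
      have e2 : ∀ n, n ≤ kk φ → ¬ kk φ + 4 * k < n := fun n => by omega
      have e3 : (4 * k + 1) % 4 ≠ 3 ∧ (4 * k + 2) % 4 ≠ 3 ∧ (4 * k + 3) % 4 = 3 ∧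
        4 * k % 4 ≠ 3 ∧ 4 * k + 3 - 2 = 4 * k + 1 ∧ 4 * k + 3 - 1 = 4 * k + 2 := by omega
      simp only [e0, e1 _ 8 (by omega), e1 _ 16 (by omega), e1 _ 18 (by omega), e1 _ _ le_rfl,
        e2 8 (by omega), e2 16 (by omega), e2 18 (by omega), e2 _ le_rfl, if_false, e3, if_true,
        Nat.add_sub_cancel_left, Nat.add_sub_cancel, b, a0, a1, a2]
      revert this
      cases χ φ[k].1 <;> cases χ φ[k].2.1 <;> cases χ φ[k].2.2 <;> simp
  · classical
    obtain ⟨P, hP⟩ := h.sound hk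
    refine ⟨fun v => decide (P (18 + v)), fun C hC => ?_⟩
    obtain ⟨k, hk, rfl⟩ := List.getElem_of_mem hC
    have := hP k hk
    obtain ⟨a0, a1, a2⟩ := v0 k hk
    rw [a0, a1, a2] at this
    simpa only [decide_eq_decide] using this

theorem hard10 : NPHardOn (fun p : ℕ × List (ℕ × ℕ) => (graphOf p.1 p.2).Connected)
    fun p => CLge (graphOf p.1 p.2) 10 :=
  (nae_nph.reduce inst pt_inst fun φ _ => spec φ).npHardOn

theorem hard : NPHardOn (fun p : ℕ × List (ℕ × ℕ) × ℕ => (graphOf p.1 p.2.1).Connected)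
    fun p => CLge (graphOf p.1 p.2.1) p.2.2 := by
  exact (nae_nph.reduce (fun φ => ((inst φ).1, (inst φ).2, 10))
    (pt_inst.fst.mk (pt_inst.snd.mk (PT.const 10))) fun φ _ => spec φ).npHardOn

end Pool.Agent.H38.Ldc
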