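import Pool.Agent.H38.Ldc.Defs

/-!
Many parts force two disjoint locating-dominating sets.
-/

namespace Pool.Agent.H38.Ldc

open Finset

variable {V : Type} {G : SimpleGraph V} {D : Set V}

theorem IsLD.hit1 (h : IsLD G D) (v : V) : v ∈ D ∨ ∃ w ∈ D, G.Adj v w := by
  by_cases hv : v ∈ D
  · exact Or.inl hv
  · exact Or.inr (h.1 v hv)

theorem IsLD.hit2 (h : IsLD G D) {u v : V} (e : u ≠ v) :
    u ∈ D ∨ v ∈ D ∨ ∃ w ∈ D, ¬ (G.Adj u w ↔ G.Adj v w) := by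
  by_contra hc
  push Not at hc
  refine h.2 u hc.1 v hc.2.1 e (Set.ext fun w => and_congr_left fun hw => hc.2.2 w hw)

theorem isLD_of (h1 : ∀ v ∉ D, ∃ w ∈ D, G.Adj v w)
    (h2 : ∀ u ∉ D, ∀ v ∉ D, (∀ w ∈ D, G.Adj u w ↔ G.Adj v w) → u = v) : IsLD G D :=
  ⟨h1, fun u hu v hv e f => e (h2 u hu v hv fun w hw => by
    simpa [hw] using Set.ext_iff.1 f w)⟩

def Low (G : SimpleGraph V) : Prop := ∀ v, (∃ w, G.Adj v w ∧ ∀ z, G.Adj w z → z = v) ∨
  ∃ L : Finset V, L.card ≤ 4 ∧ ∀ w, G.Adj v w → w ∈ L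

theorem small (h : Low G) {X : Set V} (hX : ¬ IsLD G X) :
    ∃ S : Finset V, S.card ≤ 8 ∧ ∀ D, IsLD G D → ∃ s ∈ S, s ∉ X ∧ s ∈ D := by
  classical
  have pend : ∀ v w, v ∉ X → w ∉ X → (∀ z, G.Adj w z → z = v) →
      ∃ S : Finset V, S.card ≤ 8 ∧ ∀ D, IsLD G D → ∃ s ∈ S, s ∉ X ∧ s ∈ D := fun v w a b c => by
    refine ⟨{v, w}, card_le_two.trans (by norm_num), fun D hD => ?_⟩
    rcases hD.hit1 w with e | ⟨z, e, f⟩
    · exact ⟨w, by simp, b, e⟩
    · exact ⟨v, by simp, a, c z f ▸ e⟩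
  have c1 : ∀ v, v ∉ X → (∀ w, G.Adj v w → w ∉ X) →
      ∃ S : Finset V, S.card ≤ 8 ∧ ∀ D, IsLD G D → ∃ s ∈ S, s ∉ X ∧ s ∈ D := fun v a b => by
    rcases h v with ⟨w, h1, h2⟩ | ⟨L, h1, h2⟩
    · exact pend v w a (b w h1) h2
    · refine ⟨insert v L, (card_insert_le _ _).trans (by omega), fun D hD => ?_⟩
      rcases hD.hit1 v with e | ⟨z, e, f⟩
      · exact ⟨v, by simp, a, e⟩
      · exact ⟨z, by simp [h2 z f], b z f, e⟩
  by_cases h0 : ∃ v, v ∉ X ∧ ∀ w, G.Adj v w → w ∉ X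
  · obtain ⟨v, a, b⟩ := h0
    exact c1 v a b
  push Not at h0
  have : ¬ ∀ u ∉ X, ∀ v ∉ X, (∀ w ∈ X, G.Adj u w ↔ G.Adj v w) → u = v := fun H =>
    hX (isLD_of (fun v hv => let ⟨w, a, b⟩ := h0 v hv; ⟨w, b, a⟩) H)
  push Not at this
  obtain ⟨u, hu, v, hv, e, ne⟩ := this
  rcases h u with ⟨w, h1, h2⟩ | ⟨L, h1, h2⟩
  · exact pend u w hu (fun hw => ne (h2 v ((e w hw).1 h1).symm).symm) h2
  rcases h v with ⟨w, h3, h4⟩ | ⟨L', h3, h4⟩
  · exact pend v w hv (fun hw => ne (h4 u ((e w hw).2 h3).symm)) h4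
  obtain ⟨c, c1, c2⟩ := h0 u hu
  have c3 := (e c c2).1 c1
  refine ⟨{u, v} ∪ (L.erase c ∪ L'.erase c), ?_, fun D hD => ?_⟩
  · have := card_union_le {u, v} (L.erase c ∪ L'.erase c)
    have := card_union_le (L.erase c) (L'.erase c)
    have := card_erase_of_mem (h2 c c1)
    have := card_erase_of_mem (h4 c c3)
    have := card_le_two (a := u) (b := v)
    omega
  · rcases hD.hit2 ne with f | f | ⟨w, f, g⟩
    · exact ⟨u, by simp, hu, f⟩
    · exact ⟨v, by simp, hv, f⟩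
    · refine ⟨w, ?_, fun hw => g (e w hw), f⟩
      have : w ≠ c := fun k => g (by simp [k, c1, c3])
      by_cases a : G.Adj u w
      · simp [this, h2 w a]
      · simp [this, h4 w (by tauto)]

theorem two (h : Low G) (hk : CLge G 10) : ∃ P Q, Disjoint P Q ∧ IsLD G P ∧ IsLD G Q := by
  classical
  obtain ⟨k, hk, p, -, hp⟩ := hk
  choose f f1 f2 using fun i => (hp i).2
  by_contra hc
  push Not at hc
  have meet : ∀ i j, i = j ∨ i = f j ∨ f i = j ∨ f i = f j := fun i j => by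
    by_contra hn
    push Not at hn
    refine hc _ _ (Set.disjoint_left.2 fun v a b => ?_) (f2 i).2.2.2 (f2 j).2.2.2
    simp only [Set.mem_union, Set.mem_preimage, Set.mem_singleton_iff] at a b
    rcases a with a | a <;> rcases b with b | b <;> simp_all
  let a : Fin k := ⟨0, by omega⟩
  obtain ⟨c, ca, cb⟩ : ∃ c : Fin k, c ≠ a ∧ c ≠ f a := by
    by_cases e : (f a).val = 1
    · exact ⟨⟨2, by omega⟩, by simp [a], by simp [Fin.ext_iff, e]⟩
    · exact ⟨⟨1, by omega⟩, by simp [a], by simp [Fin.ext_iff, Ne.symm e]⟩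
  have hub : ∀ i, i ≠ f c → IsLD G (p ⁻¹' {f c} ∪ p ⁻¹' {i}) := fun i hi => by
    have m1 := meet c a
    have m2 := meet i a
    have m3 := meet i c
    have : (f i = f c) ∨ (f c = a ∧ i = f a) := by grind
    rcases this with e | ⟨e, e'⟩
    · rw [← e, Set.union_comm]; exact (f2 i).2.2.2
    · rw [e, e']; exact (f2 a).2.2.2
  obtain ⟨S, s1, s2⟩ := small h (hp (f c)).1
  have : univ.erase (f c) ⊆ S.image p := fun i hi => by
    obtain ⟨s, a, b, d⟩ := s2 _ (hub i (ne_of_mem_erase hi))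
    exact mem_image.2 ⟨s, a, d.resolve_left b⟩
  have h1 := card_le_card this
  have h2 := card_image_le (s := S) (f := p)
  simp only [card_erase_of_mem (mem_univ _), card_univ, Fintype.card_fin] at h1
  omega

end Pool.Agent.H38.Ldc
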